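import Pool.Agent.Helper69.GC.Defs

set_option autoImplicit false

namespace Pool.Agent.Helper69.GC

open Polynomial

theorem alg_coeff {F : Type} [Field F] (p : F[X]) (s : ℕ) :
    (p.comp (-X)).coeff s = (-1) ^ s * p.coeff s := by
  have h : (-X : F[X]) = C (-1) * X := by simp
  rw [h, comp_C_mul_X_coeff]
  ring

theorem alg_pow {F : Type} [Field F] (n s : ℕ) (p : F[X]) :
    ((-1 : F[X]) ^ n * p).coeff s = (-1) ^ n * p.coeff s := by
  have h : (-1 : F[X]) ^ n = C ((-1) ^ n) := by simp
  rw [h, coeff_C_mul]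

theorem alg_tw_coeff {F : Type} [Field F] (M : Mat F) (i j : Fin 3) (s : ℕ) :
    (tw M i j).coeff s = (-1) ^ (s + (i : ℕ) + (j : ℕ)) * (M j.rev i.rev).coeff s := by
  unfold tw
  rw [Matrix.of_apply, alg_pow, alg_coeff, pow_add, pow_add, pow_add]
  ring

theorem alg_r0 : (0 : Fin 3).rev = 2 := rfl
theorem alg_r1 : (1 : Fin 3).rev = 1 := rfl
theorem alg_r2 : (2 : Fin 3).rev = 0 := rfl

theorem alg_mul {F : Type} [Field F] (M N : Mat F) : tw (M * N) = tw N * tw M := by
  apply Matrix.ext
  intro i j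
  unfold tw
  simp only [Matrix.of_apply, Matrix.mul_apply, Fin.sum_univ_three, alg_r0, alg_r1, alg_r2,
    add_comp, mul_comp]
  fin_cases i <;> fin_cases j <;> simp [alg_r0, alg_r1, alg_r2] <;> ring

theorem alg_sub {F : Type} [Field F] (M N : Mat F) : tw (M - N) = tw M - tw N := by
  apply Matrix.ext
  intro i j
  unfold tw
  simp only [Matrix.of_apply, Matrix.sub_apply, sub_comp]
  ring

theorem alg_inv {F : Type} [Field F] (M : Mat F) : tw (tw M) = M := by
  apply Matrix.ext
  intro i j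
  apply Polynomial.ext
  intro s
  rw [alg_tw_coeff, alg_tw_coeff, Fin.rev_rev, Fin.rev_rev, ← mul_assoc, ← pow_add]
  have h : Even (s + (i : ℕ) + (j : ℕ) + (s + (j.rev : ℕ) + (i.rev : ℕ))) := by
    rw [Fin.val_rev, Fin.val_rev]
    have := i.isLt
    have := j.isLt
    refine ⟨s + 2, ?_⟩
    omega
  rw [h.neg_one_pow, one_mul]

theorem alg_one {F : Type} [Field F] : tw (1 : Mat F) = 1 := by
  apply Matrix.ext
  intro i j
  unfold tw
  fin_cases i <;> fin_cases j <;> simp [alg_r0, alg_r1, alg_r2, Matrix.one_apply] <;> ring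

theorem alg_A_add {F : Type} [Field F] (h2 : (2 : F) ≠ 0) (a b : F) :
    matA (a + b) = matA a * matA b := by
  apply Matrix.ext
  intro i j
  have e : (a + b) ^ 2 / 2 = b ^ 2 / 2 + a * b + a ^ 2 / 2 := by field_simp; ring
  unfold matA
  rw [e]
  fin_cases i <;> fin_cases j <;>
    simp [Matrix.mul_apply, Fin.sum_univ_three, -map_pow, -map_div₀] <;> ring

theorem alg_B_add {F : Type} [Field F] (a b : F) : matB (a + b) = matB a * matB b := by
  apply Matrix.ext
  intro i j
  unfold matB
  fin_cases i <;> fin_cases j <;>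
    simp [Matrix.mul_apply, Fin.sum_univ_three, add_mul]

theorem alg_A_zero {F : Type} [Field F] : matA (0 : F) = 1 := by
  apply Matrix.ext
  intro i j
  unfold matA
  fin_cases i <;> fin_cases j <;> simp

theorem alg_B_zero {F : Type} [Field F] : matB (0 : F) = 1 := by
  apply Matrix.ext
  intro i j
  unfold matB
  fin_cases i <;> fin_cases j <;> simp

theorem alg_A_tw {F : Type} [Field F] (a : F) : tw (matA a) = matA (-a) := by
  apply Matrix.ext
  intro i j
  unfold tw matA
  fin_cases i <;> fin_cases j <;> simp [alg_r0, alg_r1, alg_r2] <;> ring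

theorem alg_B_tw {F : Type} [Field F] (b : F) : tw (matB b) = matB (-b) := by
  apply Matrix.ext
  intro i j
  unfold tw matB
  fin_cases i <;> fin_cases j <;> simp [alg_r0, alg_r1, alg_r2] <;> ring

theorem alg_A_mem {F : Type} [Field F] (h2 : (2 : F) ≠ 0) (a : F) : Mem (matA a) := by
  refine ⟨?_, ?_, ?_, ?_⟩
  · rw [Matrix.det_fin_three]
    unfold matA
    simp
  · intro i j s hs
    unfold matA
    have := i.isLt
    have := j.isLt
    fin_cases i <;> fin_cases j <;> simp [-map_pow, -map_div₀] at hs ⊢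
  · rw [alg_A_tw, ← alg_A_add h2, add_neg_cancel, alg_A_zero]
  · rw [alg_A_tw, ← alg_A_add h2, neg_add_cancel, alg_A_zero]

theorem alg_B_mem {F : Type} [Field F] (b : F) : Mem (matB b) := by
  refine ⟨?_, ?_, ?_, ?_⟩
  · rw [Matrix.det_fin_three]
    unfold matB
    simp
  · intro i j s hs
    unfold matB
    have := i.isLt
    have := j.isLt
    fin_cases i <;> fin_cases j <;> simp [coeff_C_mul, coeff_X] at hs ⊢ <;> omega
  · rw [alg_B_tw, ← alg_B_add, add_neg_cancel, alg_B_zero]
  · rw [alg_B_tw, ← alg_B_add, neg_add_cancel, alg_B_zero]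

theorem st_ALG : ST_ALG := by
  intro F _ h2
  exact ⟨alg_mul, alg_sub, alg_inv, alg_one, alg_tw_coeff, alg_A_add h2, alg_B_add,
    alg_A_mem h2, alg_B_mem⟩

end Pool.Agent.Helper69.GC
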